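import Mathlib
import Pool.Agent.Helper752.SquareLower2

set_option autoImplicit false

/-! A lower bound for the length of plane continua which meet eight small discs near the corners of
a square: two discs near each corner. -/

namespace Q187.SteinerTwo

open scoped ENNReal NNReal
open MeasureTheory Metric
open Pool.Agent.Helper752 (E2 Laminar LipOn lin lin_lipOn lin_le gap exists_laminar sq3 sq3_lt
  sq3_pos sum8)

/-- Signs of the abscissae of the corners. -/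
def ax : Fin 4 → ℝ := ![-1, 1, 1, -1]
/-- Signs of the ordinates of the corners. -/
def ay : Fin 4 → ℝ := ![1, 1, -1, -1]

/-- The corner of a label: the labels `i` and `i + 4` belong to the corner `i`. -/
def cor : Fin 8 → Fin 4 := ![0, 1, 2, 3, 0, 1, 2, 3]

theorem gap' {ι : Type*} [Fintype ι] [DecidableEq ι] {K : Set E2} {p : ι → E2} {B : ℝ}
    {M : Set (Finset ι)} (hM : Laminar M)
    (hB : ∀ φ : ι → E2 → ℝ, (∀ A ∈ M, LipOn K φ A) → (∀ x ∈ K, ∑ i, φ i x = 0) →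
      ∑ i, φ i (p i) ≤ B)
    (W : Finset ι) (hW : W ∈ M) (a b c d e : ι) (ha : a ∉ W) (hb : b ∉ W) (hc : c ∈ W)
    (hd : d ∈ W) (he : e ∈ W) (gx gy cx cy dx dy ex ey : ℝ)
    (hg : gx ^ 2 + gy ^ 2 ≤ 1) (h1 : cx ^ 2 + cy ^ 2 ≤ 1) (h2 : dx ^ 2 + dy ^ 2 ≤ 1)
    (h3 : ex ^ 2 + ey ^ 2 ≤ 1) (hsx : cx + dx + ex = 0) (hsy : cy + dy + ey = 0) :
    gx * (p a 0 - p b 0) + gy * (p a 1 - p b 1) + (cx * p c 0 + cy * p c 1)
      + (dx * p d 0 + dy * p d 1) + (ex * p e 0 + ey * p e 1) ≤ B := by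
  let X : ι → ℝ := fun i => (if i = a then gx else 0) + (if i = b then -gx else 0)
    + (if i = c then cx else 0) + (if i = d then dx else 0) + (if i = e then ex else 0)
  let Y : ι → ℝ := fun i => (if i = a then gy else 0) + (if i = b then -gy else 0)
    + (if i = c then cy else 0) + (if i = d then dy else 0) + (if i = e then ey else 0)
  have hX : ∀ A : Finset ι, ∑ i ∈ A, X i = (if a ∈ A then gx else 0) + (if b ∈ A then -gx else 0)
    + (if c ∈ A then cx else 0) + (if d ∈ A then dx else 0) + (if e ∈ A then ex else 0) := by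
    intro A
    simp only [X, Finset.sum_add_distrib, Finset.sum_ite_eq']
  have hY : ∀ A : Finset ι, ∑ i ∈ A, Y i = (if a ∈ A then gy else 0) + (if b ∈ A then -gy else 0)
    + (if c ∈ A then cy else 0) + (if d ∈ A then dy else 0) + (if e ∈ A then ey else 0) := by
    intro A
    simp only [Y, Finset.sum_add_distrib, Finset.sum_ite_eq']
  have key := hB (lin X Y) ?_ ?_
  · have hval : ∑ i, lin X Y i (p i) = gx * (p a 0 - p b 0) + gy * (p a 1 - p b 1)
        + (cx * p c 0 + cy * p c 1) + (dx * p d 0 + dy * p d 1) + (ex * p e 0 + ey * p e 1) := by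
      simp only [lin, X, Y, add_mul, ite_mul, zero_mul, Finset.sum_add_distrib,
        Finset.sum_ite_eq', Finset.mem_univ, if_true]
      ring
    rw [hval] at key
    exact key
  · intro A hA
    apply lin_lipOn
    rw [hX, hY]
    have hcases : (a ∉ A ∧ b ∉ A) ∨ (c ∉ A ∧ d ∉ A ∧ e ∉ A) ∨ (c ∈ A ∧ d ∈ A ∧ e ∈ A) := by
      rcases hM A hA W hW with h | h | h
      · left
        exact ⟨fun h' => ha (h h'), fun h' => hb (h h')⟩
      · right; right
        exact ⟨h hc, h hd, h he⟩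
      · right; left
        exact ⟨fun h' => Finset.disjoint_left.1 h h' hc, fun h' => Finset.disjoint_left.1 h h' hd,
          fun h' => Finset.disjoint_left.1 h h' he⟩
    have e1 : ex = -(cx + dx) := by linarith
    have e2 : ey = -(cy + dy) := by linarith
    rcases hcases with ⟨h4, h5⟩ | ⟨h4, h5, h6⟩ | ⟨h4, h5, h6⟩
    · rw [if_neg h4, if_neg h5, if_neg h4, if_neg h5]
      subst e1 e2
      split_ifs <;> nlinarith
    · rw [if_neg h4, if_neg h5, if_neg h6, if_neg h4, if_neg h5, if_neg h6]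
      split_ifs <;> nlinarith
    · rw [if_pos h4, if_pos h5, if_pos h6, if_pos h4, if_pos h5, if_pos h6]
      subst e1 e2
      split_ifs <;> nlinarith
  · intro x _
    have h4 : ∑ i, lin X Y i x = (∑ i, X i) * x 0 + (∑ i, Y i) * x 1 := by
      simp only [lin, Finset.sum_add_distrib, ← Finset.sum_mul]
    rw [h4, hX, hY]
    simp only [Finset.mem_univ, if_true]
    have e1 : ex = -(cx + dx) := by linarith
    have e2 : ey = -(cy + dy) := by linarith
    subst e1 e2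
    ring


theorem exists_missing : ∀ i j k : Fin 4, i ≠ j → i ≠ k → j ≠ k →
    ∃ o : Fin 4, i ≠ o ∧ j ≠ o ∧ k ≠ o ∧ (i = o + 2 ∨ j = o + 2 ∨ k = o + 2) := by
  decide

theorem univ_eq_four : ∀ i j k o : Fin 4, i ≠ j → i ≠ k → j ≠ k → i ≠ o → j ≠ o → k ≠ o →
    (Finset.univ : Finset (Fin 4)) = {o, i, j, k} := by
  decide

section

variable {K : Set E2} {p : Fin 8 → E2} {B : ℝ} {M : Set (Finset (Fin 8))}

/-- A member of the laminar family does not separate two different corners from three. -/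
theorem noPairTriple (hM : Laminar M)
    (hB : ∀ φ : Fin 8 → E2 → ℝ, (∀ A ∈ M, LipOn K φ A) → (∀ x ∈ K, ∑ i, φ i x = 0) →
      ∑ i, φ i (p i) ≤ B)
    (hx : ∀ i, |p i 0 - ax (cor i)| ≤ 1 / 50) (hy : ∀ i, |p i 1 - ay (cor i)| ≤ 1 / 50)
    (hlt : B < 5.7) (W : Finset (Fin 8)) (hW : W ∈ M) (a b c d e : Fin 8)
    (hs : (a ∈ W ∧ b ∈ W ∧ c ∉ W ∧ d ∉ W ∧ e ∉ W) ∨ (a ∉ W ∧ b ∉ W ∧ c ∈ W ∧ d ∈ W ∧ e ∈ W))
    (hab : cor a ≠ cor b) (hcd : cor c ≠ cor d) (hce : cor c ≠ cor e) (hde : cor d ≠ cor e) :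
    False := by
  have key : ∀ gx gy cx cy dx dy ex ey : ℝ, gx ^ 2 + gy ^ 2 ≤ 1 → cx ^ 2 + cy ^ 2 ≤ 1 →
      dx ^ 2 + dy ^ 2 ≤ 1 → ex ^ 2 + ey ^ 2 ≤ 1 → cx + dx + ex = 0 → cy + dy + ey = 0 →
      gx * (p a 0 - p b 0) + gy * (p a 1 - p b 1) + (cx * p c 0 + cy * p c 1)
      + (dx * p d 0 + dy * p d 1) + (ex * p e 0 + ey * p e 1) ≤ B := by
    intro gx gy cx cy dx dy ex ey g1 g2 g3 g4 g5 g6
    rcases hs with ⟨ha, hb, hc, hd, he⟩ | ⟨ha, hb, hc, hd, he⟩
    · exact gap hM hB W hW a b c d e ha hb hc hd he gx gy cx cy dx dy ex ey g1 g2 g3 g4 g5 g6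
    · exact gap' hM hB W hW a b c d e ha hb hc hd he gx gy cx cy dx dy ex ey g1 g2 g3 g4 g5 g6
  have xa := abs_le.1 (hx a)
  have xb := abs_le.1 (hx b)
  have xc := abs_le.1 (hx c)
  have xd := abs_le.1 (hx d)
  have xe := abs_le.1 (hx e)
  have ya := abs_le.1 (hy a)
  have yb := abs_le.1 (hy b)
  have yc := abs_le.1 (hy c)
  have yd := abs_le.1 (hy d)
  have ye := abs_le.1 (hy e)
  -- the pair
  have hpair : ∃ gx gy : ℝ, gx ^ 2 + gy ^ 2 ≤ 1 ∧
      1.96 ≤ gx * (p a 0 - p b 0) + gy * (p a 1 - p b 1) := by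
    generalize cor a = i at *
    generalize cor b = j at *
    fin_cases i <;> fin_cases j <;> simp [ax, ay] at hab xa xb ya yb
    · exact ⟨-1, 0, by norm_num, by linarith⟩
    · exact ⟨-1, 0, by norm_num, by linarith⟩
    · exact ⟨0, 1, by norm_num, by linarith⟩
    · exact ⟨1, 0, by norm_num, by linarith⟩
    · exact ⟨0, 1, by norm_num, by linarith⟩
    · exact ⟨1, 0, by norm_num, by linarith⟩
    · exact ⟨1, 0, by norm_num, by linarith⟩
    · exact ⟨0, -1, by norm_num, by linarith⟩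
    · exact ⟨1, 0, by norm_num, by linarith⟩
    · exact ⟨0, -1, by norm_num, by linarith⟩
    · exact ⟨-1, 0, by norm_num, by linarith⟩
    · exact ⟨-1, 0, by norm_num, by linarith⟩
  obtain ⟨gx, gy, hg, hgv⟩ := hpair
  have htriple : ∃ cx cy dx dy ex ey : ℝ, cx ^ 2 + cy ^ 2 ≤ 1 ∧ dx ^ 2 + dy ^ 2 ≤ 1 ∧
      ex ^ 2 + ey ^ 2 ≤ 1 ∧ cx + dx + ex = 0 ∧ cy + dy + ey = 0 ∧
      3.76 ≤ (cx * p c 0 + cy * p c 1) + (dx * p d 0 + dy * p d 1) + (ex * p e 0 + ey * p e 1) := by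
    generalize cor c = i at *
    generalize cor d = j at *
    generalize cor e = k at *
    -- choose the vector of each corner according to the missing corner
    have hv : ∀ o : Fin 4, ∃ vx vy : Fin 4 → ℝ, (∀ i, i ≠ o → vx i ^ 2 + vy i ^ 2 ≤ 1) ∧
        (∑ i, if i = o then 0 else vx i) = 0 ∧ (∑ i, if i = o then 0 else vy i) = 0 ∧
        (∀ (i : Fin 4) (z : E2), i ≠ o → -(1 / 50) ≤ z 0 - ax i ∧ z 0 - ax i ≤ 1 / 50 →
          -(1 / 50) ≤ z 1 - ay i ∧ z 1 - ay i ≤ 1 / 50 →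
          (if i = o + 2 then 1.36 - 1.36 / 50 else 1.24 - 1.24 / 50) ≤ vx i * z 0 + vy i * z 1) := by
      intro o
      fin_cases o
      · refine ⟨![0, 0.28, 0.68, -0.96], ![0, 0.96, -0.68, -0.28], ?_, ?_, ?_, ?_⟩
        · intro i hi
          fin_cases i <;> simp at hi ⊢ <;> norm_num
        · simp [Fin.sum_univ_four]; norm_num
        · simp [Fin.sum_univ_four]; norm_num
        · intro i z hi h1 h2
          fin_cases i <;> simp [ax, ay] at hi h1 h2 ⊢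
          all_goals linarith
      · refine ⟨![-0.28, 0, 0.96, -0.68], ![0.96, 0, -0.28, -0.68], ?_, ?_, ?_, ?_⟩
        · intro i hi
          fin_cases i <;> simp at hi ⊢ <;> norm_num
        · simp [Fin.sum_univ_four]; norm_num
        · simp [Fin.sum_univ_four]; norm_num
        · intro i z hi h1 h2
          fin_cases i <;> simp [ax, ay] at hi h1 h2 ⊢
          all_goals linarith
      · refine ⟨![-0.68, 0.96, 0, -0.28], ![0.68, 0.28, 0, -0.96], ?_, ?_, ?_, ?_⟩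
        · intro i hi
          fin_cases i <;> simp at hi ⊢ <;> norm_num
        · simp [Fin.sum_univ_four]; norm_num
        · simp [Fin.sum_univ_four]; norm_num
        · intro i z hi h1 h2
          fin_cases i <;> simp [ax, ay] at hi h1 h2 ⊢
          all_goals linarith
      · refine ⟨![-0.96, 0.68, 0.28, 0], ![0.28, 0.68, -0.96, 0], ?_, ?_, ?_, ?_⟩
        · intro i hi
          fin_cases i <;> simp at hi ⊢ <;> norm_num
        · simp [Fin.sum_univ_four]; norm_num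
        · simp [Fin.sum_univ_four]; norm_num
        · intro i z hi h1 h2
          fin_cases i <;> simp [ax, ay] at hi h1 h2 ⊢
          all_goals linarith
    obtain ⟨o, hoi, hoj, hok, hperm⟩ := exists_missing i j k hcd hce hde
    obtain ⟨vx, vy, hv1, hv2, hv3, hv4⟩ := hv o
    have hsum : ∀ f : Fin 4 → ℝ, (∑ t, if t = o then 0 else f t) = f i + f j + f k := by
      intro f
      rw [univ_eq_four i j k o hcd hce hde hoi hoj hok]
      rw [Finset.sum_insert, Finset.sum_insert, Finset.sum_insert, Finset.sum_singleton]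
      · rw [if_pos rfl, if_neg hoi, if_neg hoj, if_neg hok]
        ring
      · simpa using hde
      · simp only [Finset.mem_insert, Finset.mem_singleton, not_or]
        exact ⟨hcd, hce⟩
      · simp only [Finset.mem_insert, Finset.mem_singleton, not_or]
        exact ⟨fun h => hoi h.symm, fun h => hoj h.symm, fun h => hok h.symm⟩
    rw [hsum] at hv2 hv3
    refine ⟨vx i, vy i, vx j, vy j, vx k, vy k, hv1 i hoi, hv1 j hoj, hv1 k hok, hv2, hv3, ?_⟩
    have t1 := hv4 i (p c) hoi xc yc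
    have t2 := hv4 j (p d) hoj xd yd
    have t3 := hv4 k (p e) hok xe ye
    rcases hperm with h | h | h
    · rw [if_pos h] at t1
      rw [if_neg (by rw [← h]; exact hcd.symm)] at t2
      rw [if_neg (by rw [← h]; exact hce.symm)] at t3
      linarith
    · rw [if_neg (by rw [← h]; exact hcd)] at t1
      rw [if_pos h] at t2
      rw [if_neg (by rw [← h]; exact hde.symm)] at t3
      linarith
    · rw [if_neg (by rw [← h]; exact hce)] at t1
      rw [if_neg (by rw [← h]; exact hde)] at t2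
      rw [if_pos h] at t3
      linarith
  obtain ⟨cx, cy, dx, dy, ex, ey, k1, k2, k3, k4, k5, k6⟩ := htriple
  have := key gx gy cx cy dx dy ex ey hg k1 k2 k3 k4 k5
  linarith

/-- The structure of the members of the laminar family: either they respect the pairs of labels of
all corners, or they, or their complements, contain labels of only one corner. -/
theorem structure_mem (hM : Laminar M)
    (hB : ∀ φ : Fin 8 → E2 → ℝ, (∀ A ∈ M, LipOn K φ A) → (∀ x ∈ K, ∑ i, φ i x = 0) →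
      ∑ i, φ i (p i) ≤ B)
    (hx : ∀ i, |p i 0 - ax (cor i)| ≤ 1 / 50) (hy : ∀ i, |p i 1 - ay (cor i)| ≤ 1 / 50)
    (hlt : B < 5.7) (W : Finset (Fin 8)) (hW : W ∈ M) :
    (∃ i : Fin 4, ∀ l, l ∈ W → cor l = i) ∨ (∃ i : Fin 4, ∀ l, l ∉ W → cor l = i) ∨
      (∃ i j : Fin 4, i ≠ j ∧ ∀ l, l ∈ W ↔ cor l = i ∨ cor l = j) := by
  by_contra hcon
  push Not at hcon
  obtain ⟨h1, h2, h3⟩ := hcon
  -- two labels inside, at different corners
  obtain ⟨a, ha, -⟩ := h1 0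
  obtain ⟨b, hb, hab⟩ := h1 (cor a)
  obtain ⟨c, hc, -⟩ := h2 0
  obtain ⟨d, hd, hcd⟩ := h2 (cor c)
  have hno := noPairTriple hM hB hx hy hlt W hW
  -- no third corner outside
  have hout : ∀ e, e ∉ W → cor e = cor c ∨ cor e = cor d := by
    intro e he
    by_contra hne
    push Not at hne
    exact hno a b c d e (Or.inl ⟨ha, hb, hc, hd, he⟩) hab.symm hcd.symm hne.1.symm hne.2.symm
  have hin : ∀ e, e ∈ W → cor e = cor a ∨ cor e = cor b := by
    intro e he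
    by_contra hne
    push Not at hne
    exact hno c d a b e (Or.inr ⟨hc, hd, ha, hb, he⟩) hcd.symm hab.symm hne.1.symm hne.2.symm
  obtain ⟨l, hl⟩ := h3 (cor a) (cor b) hab.symm
  rcases hl with ⟨hl, hl1, hl2⟩ | ⟨hl, hl1⟩
  · rcases hin l hl with h | h
    · exact hl1 h
    · exact hl2 h
  · -- the corner of `l` occurs inside and outside
    have hcover : ∀ i : Fin 4, (i = cor a ∨ i = cor b) ∨ (i = cor c ∨ i = cor d) := by
      intro i
      obtain ⟨m, rfl⟩ : ∃ m, cor m = i := by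
        fin_cases i
        · exact ⟨0, rfl⟩
        · exact ⟨1, rfl⟩
        · exact ⟨2, rfl⟩
        · exact ⟨3, rfl⟩
      by_cases hm : m ∈ W
      · exact Or.inl (hin m hm)
      · exact Or.inr (hout m hm)
    have h4 := hout l hl
    generalize cor a = x1 at *
    generalize cor b = x2 at *
    generalize cor c = x3 at *
    generalize cor d = x4 at *
    generalize cor l = x5 at *
    have : ∀ x1 x2 x3 x4 x5 : Fin 4, x2 ≠ x1 → x4 ≠ x3 → (x5 = x1 ∨ x5 = x2) →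
        (x5 = x3 ∨ x5 = x4) →
        ¬ ∀ i : Fin 4, (i = x1 ∨ i = x2) ∨ (i = x3 ∨ i = x4) := by
      decide
    exact this x1 x2 x3 x4 x5 hab hcd hl1 h4 hcover

/-- abscissae of the coefficients of the first tree -/
noncomputable def X1 : Fin 8 → ℝ := ![-1 / 2, 1 / 2, 1 / 2, -1 / 2, 0, 0, 0, 0]
/-- ordinates of the coefficients of the first tree -/
noncomputable def Y1 : Fin 8 → ℝ := ![√3 / 2, √3 / 2, -(√3 / 2), -(√3 / 2), 0, 0, 0, 0]
/-- abscissae of the coefficients of the second tree -/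
noncomputable def X2 : Fin 8 → ℝ := ![-1 / 2, 1 / 2, 1 / 2, -1 / 2,
  -(√3 - 1) / 2, (√3 - 1) / 2, (√3 - 1) / 2, -(√3 - 1) / 2]
/-- ordinates of the coefficients of the second tree -/
noncomputable def Y2 : Fin 8 → ℝ := ![√3 / 2, √3 / 2, -(√3 / 2), -(√3 / 2),
  -(√3 - 1) / 2, -(√3 - 1) / 2, (√3 - 1) / 2, (√3 - 1) / 2]

/-- The hypotheses on the eight points: the labels `0..3` belong to the discs at the ends of the
prolonged legs, the labels `4..7` to the discs at the corners. -/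
structure Good (l : ℝ) (p : Fin 8 → E2) : Prop where
  hx : ∀ i, |p i 0 - ax (cor i)| ≤ 1 / 50
  hy : ∀ i, |p i 1 - ay (cor i)| ≤ 1 / 50
  h0 : -1 / 2 * (-1 - l / 2) + √3 / 2 * (1 + √3 / 2 * l) ≤ -1 / 2 * p 0 0 + √3 / 2 * p 0 1
  h1 : 1 / 2 * (1 + l / 2) + √3 / 2 * (1 + √3 / 2 * l) ≤ 1 / 2 * p 1 0 + √3 / 2 * p 1 1
  h2 : 1 / 2 * (1 + l / 2) + √3 / 2 * (1 + √3 / 2 * l) ≤ 1 / 2 * p 2 0 - √3 / 2 * p 2 1
  h3 : -1 / 2 * (-1 - l / 2) + √3 / 2 * (1 + √3 / 2 * l) ≤ -1 / 2 * p 3 0 - √3 / 2 * p 3 1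
  h4 : 0 ≤ - p 4 0 - p 4 1
  h5 : 0 ≤ p 5 0 - p 5 1
  h6 : 0 ≤ p 6 0 + p 6 1
  h7 : 0 ≤ - p 7 0 + p 7 1

theorem bound_first {l : ℝ} (hp : Good l p)
    (hB : ∀ φ : Fin 8 → E2 → ℝ, (∀ A ∈ M, LipOn K φ A) → (∀ x ∈ K, ∑ i, φ i x = 0) →
      ∑ i, φ i (p i) ≤ B)
    (hM1 : ∀ A ∈ M, (∑ i ∈ A, X1 i) ^ 2 + (∑ i ∈ A, Y1 i) ^ 2 ≤ 1) :
    2 + 2 * √3 + 4 * l ≤ B := by
  have key := hB (lin X1 Y1) (fun A hA => lin_lipOn K X1 Y1 A (hM1 A hA)) ?_
  · simp only [lin, Fin.sum_univ_eight] at key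
    simp [X1, Y1] at key
    have e0 := hp.h0
    have e1 := hp.h1
    have e2 := hp.h2
    have e3 := hp.h3
    have e : √3 / 2 * (1 + √3 / 2 * l) = √3 / 2 + 3 / 4 * l := by
      have h6 := sq3
      linear_combination l / 4 * h6
    rw [e] at e0 e1 e2 e3
    linarith
  · intro x _
    simp [lin, Fin.sum_univ_eight, X1, Y1]
    ring

theorem bound_second {l : ℝ} (hp : Good l p)
    (hB : ∀ φ : Fin 8 → E2 → ℝ, (∀ A ∈ M, LipOn K φ A) → (∀ x ∈ K, ∑ i, φ i x = 0) →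
      ∑ i, φ i (p i) ≤ B)
    (hM1 : ∀ A ∈ M, (∑ i ∈ A, X2 i) ^ 2 + (∑ i ∈ A, Y2 i) ^ 2 ≤ 1) :
    2 + 2 * √3 + 4 * l ≤ B := by
  have key := hB (lin X2 Y2) (fun A hA => lin_lipOn K X2 Y2 A (hM1 A hA)) ?_
  · simp only [lin, Fin.sum_univ_eight] at key
    simp [X2, Y2] at key
    have e0 := hp.h0
    have e1 := hp.h1
    have e2 := hp.h2
    have e3 := hp.h3
    have e : √3 / 2 * (1 + √3 / 2 * l) = √3 / 2 + 3 / 4 * l := by
      have h6 := sq3
      linear_combination l / 4 * h6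
    rw [e] at e0 e1 e2 e3
    have hs : 0 ≤ (√3 - 1) / 2 := by
      have : (1:ℝ) ≤ √3 := by
        rw [Real.one_le_sqrt]; norm_num
      linarith
    have k4 := mul_nonneg hs hp.h4
    have k5 := mul_nonneg hs hp.h5
    have k6 := mul_nonneg hs hp.h6
    have k7 := mul_nonneg hs hp.h7
    linarith
  · intro x _
    simp [lin, Fin.sum_univ_eight, X2, Y2]
    ring

/-- Sums over the labels of a set. -/
theorem sum_X2 (A : Finset (Fin 8)) : (∑ i ∈ A, X2 i) =
    (if 0 ∈ A then -1 / 2 else 0) + (if 1 ∈ A then 1 / 2 else 0) + (if 2 ∈ A then 1 / 2 else 0)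
      + (if 3 ∈ A then -1 / 2 else 0) + (if 4 ∈ A then -(√3 - 1) / 2 else 0)
      + (if 5 ∈ A then (√3 - 1) / 2 else 0) + (if 6 ∈ A then (√3 - 1) / 2 else 0)
      + (if 7 ∈ A then -(√3 - 1) / 2 else 0) := by
  rw [sum8]; rfl

theorem sum_Y2 (A : Finset (Fin 8)) : (∑ i ∈ A, Y2 i) =
    (if 0 ∈ A then √3 / 2 else 0) + (if 1 ∈ A then √3 / 2 else 0)
      + (if 2 ∈ A then -(√3 / 2) else 0)
      + (if 3 ∈ A then -(√3 / 2) else 0) + (if 4 ∈ A then -(√3 - 1) / 2 else 0)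
      + (if 5 ∈ A then -(√3 - 1) / 2 else 0) + (if 6 ∈ A then (√3 - 1) / 2 else 0)
      + (if 7 ∈ A then (√3 - 1) / 2 else 0) := by
  rw [sum8]; rfl

theorem sum_X1 (A : Finset (Fin 8)) : (∑ i ∈ A, X1 i) =
    (if 0 ∈ A then -1 / 2 else 0) + (if 1 ∈ A then 1 / 2 else 0) + (if 2 ∈ A then 1 / 2 else 0)
      + (if 3 ∈ A then -1 / 2 else 0) := by
  rw [sum8]
  simp [X1]

theorem sum_Y1 (A : Finset (Fin 8)) : (∑ i ∈ A, Y1 i) =
    (if 0 ∈ A then √3 / 2 else 0) + (if 1 ∈ A then √3 / 2 else 0)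
      + (if 2 ∈ A then -(√3 / 2) else 0)
      + (if 3 ∈ A then -(√3 / 2) else 0) := by
  rw [sum8]
  simp [Y1]

/-- the first family of potentials is admissible for all sets except those which separate the two
upper corners from the two lower ones -/
theorem first_ok (A : Finset (Fin 8))
    (h : ¬ (0 ∈ A ∧ 1 ∈ A ∧ 2 ∉ A ∧ 3 ∉ A) ∧ ¬ (0 ∉ A ∧ 1 ∉ A ∧ 2 ∈ A ∧ 3 ∈ A)) :
    (∑ i ∈ A, X1 i) ^ 2 + (∑ i ∈ A, Y1 i) ^ 2 ≤ 1 := by
  rw [sum_X1, sum_Y1]
  have h6 := sq3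
  by_cases b0 : (0 : Fin 8) ∈ A <;> by_cases b1 : (1 : Fin 8) ∈ A <;>
    by_cases b2 : (2 : Fin 8) ∈ A <;> by_cases b3 : (3 : Fin 8) ∈ A <;>
    simp [b0, b1, b2, b3] at h ⊢ <;> nlinarith

/-- the second family of potentials is admissible for sets inside one corner -/
theorem second_ok_small (A : Finset (Fin 8)) (i : Fin 4) (h : ∀ l, l ∈ A → cor l = i) :
    (∑ i ∈ A, X2 i) ^ 2 + (∑ i ∈ A, Y2 i) ^ 2 ≤ 1 := by
  rw [sum_X2, sum_Y2]
  have h6 := sq3
  have h7 := sq3_lt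
  have h8 := sq3_pos
  have c0 := h 0
  have c1 := h 1
  have c2 := h 2
  have c3 := h 3
  have c4 := h 4
  have c5 := h 5
  have c6 := h 6
  have c7 := h 7
  fin_cases i
  · simp [cor] at c0 c1 c2 c3 c4 c5 c6 c7
    simp only [if_neg c1, if_neg c2, if_neg c3, if_neg c5, if_neg c6, if_neg c7]
    split_ifs <;> nlinarith
  · simp [cor] at c0 c1 c2 c3 c4 c5 c6 c7
    simp only [if_neg c0, if_neg c2, if_neg c3, if_neg c4, if_neg c6, if_neg c7]
    split_ifs <;> nlinarith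
  · simp [cor] at c0 c1 c2 c3 c4 c5 c6 c7
    simp only [if_neg c0, if_neg c1, if_neg c3, if_neg c4, if_neg c5, if_neg c7]
    split_ifs <;> nlinarith
  · simp [cor] at c0 c1 c2 c3 c4 c5 c6 c7
    simp only [if_neg c0, if_neg c1, if_neg c2, if_neg c4, if_neg c5, if_neg c6]
    split_ifs <;> nlinarith

theorem sum_compl_X2 (A : Finset (Fin 8)) : ∑ i ∈ A, X2 i = - ∑ i ∈ Aᶜ, X2 i := by
  have h := Finset.sum_add_sum_compl A X2
  have h2 : ∑ i, X2 i = 0 := by
    simp [Fin.sum_univ_eight, X2]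
    ring
  linarith

theorem sum_compl_Y2 (A : Finset (Fin 8)) : ∑ i ∈ A, Y2 i = - ∑ i ∈ Aᶜ, Y2 i := by
  have h := Finset.sum_add_sum_compl A Y2
  have h2 : ∑ i, Y2 i = 0 := by
    simp [Fin.sum_univ_eight, Y2]
    ring
  linarith

/-- the second family of potentials is admissible for sets whose complement is in one corner -/
theorem second_ok_large (A : Finset (Fin 8)) (i : Fin 4) (h : ∀ l, l ∉ A → cor l = i) :
    (∑ i ∈ A, X2 i) ^ 2 + (∑ i ∈ A, Y2 i) ^ 2 ≤ 1 := by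
  rw [sum_compl_X2, sum_compl_Y2]
  have := second_ok_small Aᶜ i (fun l hl => h l (by simpa using hl))
  nlinarith

/-- the second family of potentials is admissible for two corners which are neither the left ones
nor the right ones -/
theorem second_ok_pair (A : Finset (Fin 8)) (i j : Fin 4) (hij : i ≠ j)
    (h : ∀ l, l ∈ A ↔ cor l = i ∨ cor l = j)
    (h03 : ¬ (0 ∈ A ∧ 3 ∈ A ∧ 1 ∉ A ∧ 2 ∉ A)) (h12 : ¬ (0 ∉ A ∧ 3 ∉ A ∧ 1 ∈ A ∧ 2 ∈ A)) :
    (∑ i ∈ A, X2 i) ^ 2 + (∑ i ∈ A, Y2 i) ^ 2 ≤ 1 := by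
  rw [sum_X2, sum_Y2]
  have h6 := sq3
  simp only [h] at h03 h12 ⊢
  fin_cases i <;> fin_cases j <;> simp [cor] at hij h03 h12 ⊢ <;> nlinarith

theorem bound_of_laminar {l : ℝ} (hl : l ≤ 1 / 50) (hp : Good l p) (hM : Laminar M)
    (hB : ∀ φ : Fin 8 → E2 → ℝ, (∀ A ∈ M, LipOn K φ A) → (∀ x ∈ K, ∑ i, φ i x = 0) →
      ∑ i, φ i (p i) ≤ B) :
    2 + 2 * √3 + 4 * l ≤ B := by
  by_contra hlt
  have hlt' : B < 5.7 := by
    have := sq3_lt
    push Not at hlt
    linarith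
  have hst := structure_mem hM hB hp.hx hp.hy hlt'
  by_cases h1 : ∀ A ∈ M, ¬ (0 ∈ A ∧ 1 ∈ A ∧ 2 ∉ A ∧ 3 ∉ A) ∧ ¬ (0 ∉ A ∧ 1 ∉ A ∧ 2 ∈ A ∧ 3 ∈ A)
  · exact hlt (bound_first hp hB fun A hA => first_ok A (h1 A hA))
  apply hlt
  apply bound_second hp hB
  intro A hA
  push Not at h1
  obtain ⟨S, hS, hS'⟩ := h1
  have hS'' : (0 ∈ S ∧ 1 ∈ S ∧ 2 ∉ S ∧ 3 ∉ S) ∨ (0 ∉ S ∧ 1 ∉ S ∧ 2 ∈ S ∧ 3 ∈ S) := by tauto
  rcases hst A hA with ⟨i, hi⟩ | ⟨i, hi⟩ | ⟨i, j, hij, hi⟩
  · exact second_ok_small A i hi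
  · exact second_ok_large A i hi
  · have hcase : (0 ∈ A → 3 ∈ A → 1 ∉ A → 2 ∉ A → False) ∧
        (0 ∉ A → 3 ∉ A → 1 ∈ A → 2 ∈ A → False) := by
      constructor
      · intro a0 a3 a1 a2
        rcases hM A hA S hS with h | h | h
        · rcases hS'' with ⟨s0, s1, s2, s3⟩ | ⟨s0, s1, s2, s3⟩
          · exact s3 (h a3)
          · exact s0 (h a0)
        · rcases hS'' with ⟨s0, s1, s2, s3⟩ | ⟨s0, s1, s2, s3⟩
          · exact a1 (h s1)
          · exact a2 (h s2)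
        · rw [Finset.disjoint_left] at h
          rcases hS'' with ⟨s0, s1, s2, s3⟩ | ⟨s0, s1, s2, s3⟩
          · exact h a0 s0
          · exact h a3 s3
      · intro a0 a3 a1 a2
        rcases hM A hA S hS with h | h | h
        · rcases hS'' with ⟨s0, s1, s2, s3⟩ | ⟨s0, s1, s2, s3⟩
          · exact s2 (h a2)
          · exact s1 (h a1)
        · rcases hS'' with ⟨s0, s1, s2, s3⟩ | ⟨s0, s1, s2, s3⟩
          · exact a0 (h s0)
          · exact a3 (h s3)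
        · rw [Finset.disjoint_left] at h
          rcases hS'' with ⟨s0, s1, s2, s3⟩ | ⟨s0, s1, s2, s3⟩
          · exact h a1 s1
          · exact h a2 s2
    exact second_ok_pair A i j hij hi (fun h => hcase.1 h.1 h.2.1 h.2.2.1 h.2.2.2)
      (fun h => hcase.2 h.1 h.2.1 h.2.2.1 h.2.2.2)

end

/-- **Lower bound.** A compact connected plane set which contains eight points as in `Good l` has
length at least `2 + 2 √3 + 4 l`. -/
theorem lower_bound {l : ℝ} (hl0 : 0 ≤ l) (hl : l ≤ 1 / 50) {K : Set E2} (hK : IsCompact K)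
    (hc : IsConnected K) (p : Fin 8 → E2) (hpK : ∀ i, p i ∈ K) (hp : Good l p) :
    ENNReal.ofReal (2 + 2 * √3 + 4 * l) ≤ μH[1] K := by
  by_contra hlt
  push Not at hlt
  have hfin : μH[1] K ≠ ∞ := ne_top_of_lt hlt
  set L := (μH[1] K).toReal with hL
  have hL0 : 0 ≤ L := ENNReal.toReal_nonneg
  have hLlt : L < 2 + 2 * √3 + 4 * l := by
    rw [hL]
    exact (ENNReal.lt_ofReal_iff_toReal_lt hfin).1 hlt
  obtain ⟨M, hM, _, hB⟩ := exists_laminar hK hc p hpK L hL0 (by rw [hL, ENNReal.ofReal_toReal hfin])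
    ((2 + 2 * √3 + 4 * l - L) / 2) (by linarith)
  have := bound_of_laminar hl hp hM hB
  linarith

end Q187.SteinerTwo
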