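import Mathlib
import Pool.Agent.Q187.SteinerTwo.Lower

set_option autoImplicit false

/-! Two Steiner trees `S` and `T` for the same eight points of the plane. -/

namespace Q187.SteinerTwo

open scoped ENNReal NNReal
open MeasureTheory Metric
open Pool.Agent.Helper752 (E2 lin_le sq3 sq3_lt sq3_pos)

/-- The length of the prolongations of the legs. -/
noncomputable def ll : ℝ := 1 / 100

/-- The radius. -/
noncomputable def rr : ℝ := 1 / 200

/-- The corners of the square `[-1, 1]²`. -/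
noncomputable def pa (i : Fin 4) : E2 := !₂[ax i, ay i]
/-- The ends of the prolonged legs. -/
noncomputable def pb (i : Fin 4) : E2 := !₂[ax i * (1 + ll / 2), ay i * (1 + √3 / 2 * ll)]
/-- The Steiner points of the first tree. -/
noncomputable def ps (i : Fin 4) : E2 := !₂[ax i * (1 - √3 / 3), 0]
/-- The Steiner points of the second tree. -/
noncomputable def pt (i : Fin 4) : E2 := !₂[0, ay i * (1 - √3 / 3)]

/-- The terminals. -/
noncomputable def term : Fin 8 → E2 := ![pb 0, pb 1, pb 2, pb 3, pa 0, pa 1, pa 2, pa 3]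

/-- The centres of the discs at the ends of the legs. -/
noncomputable def cb (i : Fin 4) : E2 :=
  !₂[ax i * (1 + ll / 2 + rr / 2), ay i * (1 + √3 / 2 * ll + √3 / 2 * rr)]
/-- The centres of the discs at the corners. -/
noncomputable def ca (i : Fin 4) : E2 := !₂[ax i * (1 + √2 / 2 * rr), ay i * (1 - √2 / 2 * rr)]

/-- The centres of the discs. -/
noncomputable def cen : Fin 8 → E2 := ![cb 0, cb 1, cb 2, cb 3, ca 0, ca 1, ca 2, ca 3]

/-- The first Steiner tree. -/
noncomputable def treeS : Set E2 := (⋃ i, segment ℝ (pb i) (ps i)) ∪ segment ℝ (ps 0) (ps 1)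

/-- The second Steiner tree. -/
noncomputable def treeT : Set E2 :=
  (⋃ i, segment ℝ (pb i) (pa i) ∪ segment ℝ (pa i) (pt i)) ∪ segment ℝ (pt 0) (pt 2)

theorem ax_cases (i : Fin 4) : ax i = 1 ∨ ax i = -1 := by
  fin_cases i <;> simp [ax]

theorem ay_cases (i : Fin 4) : ay i = 1 ∨ ay i = -1 := by
  fin_cases i <;> simp [ay]

theorem sq3_gt : 1.732 < √3 := by
  rw [Real.lt_sqrt (by norm_num)]; norm_num

theorem sq2_pos : 0 < √2 := Real.sqrt_pos.2 (by norm_num)

theorem sq2_lt : √2 < 1.5 := by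
  rw [Real.sqrt_lt' (by norm_num)]; norm_num

theorem sq2 : √2 ^ 2 = 2 := Real.sq_sqrt (by norm_num)

theorem isCompact_segment' (x y : E2) : IsCompact (segment ℝ x y) := by
  rw [segment_eq_image_lineMap]
  exact isCompact_Icc.image (by fun_prop)

theorem isCompact_treeS : IsCompact treeS :=
  (isCompact_iUnion fun _ => isCompact_segment' _ _).union (isCompact_segment' _ _)

theorem isCompact_treeT : IsCompact treeT :=
  (isCompact_iUnion fun _ => (isCompact_segment' _ _).union (isCompact_segment' _ _)).union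
    (isCompact_segment' _ _)

theorem isConn_segment (x y : E2) : IsPreconnected (segment ℝ x y) :=
  (convex_segment x y).isPreconnected

theorem ps_mem (i : Fin 4) : ps i ∈ segment ℝ (ps 0) (ps 1) := by
  have h3 : ps 3 = ps 0 := by simp [ps, ax]
  have h2 : ps 2 = ps 1 := by simp [ps, ax]
  fin_cases i
  · exact left_mem_segment _ _ _
  · exact right_mem_segment _ _ _
  · show ps 2 ∈ _
    rw [h2]; exact right_mem_segment _ _ _
  · show ps 3 ∈ _
    rw [h3]; exact left_mem_segment _ _ _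

theorem pt_mem (i : Fin 4) : pt i ∈ segment ℝ (pt 0) (pt 2) := by
  have h3 : pt 3 = pt 2 := by simp [pt, ay]
  have h2 : pt 1 = pt 0 := by simp [pt, ay]
  fin_cases i
  · exact left_mem_segment _ _ _
  · show pt 1 ∈ _
    rw [h2]; exact left_mem_segment _ _ _
  · exact right_mem_segment _ _ _
  · show pt 3 ∈ _
    rw [h3]; exact right_mem_segment _ _ _

theorem isConnected_treeS : IsConnected treeS := by
  refine ⟨⟨ps 0, Or.inr (left_mem_segment _ _ _)⟩, ?_⟩
  have h : treeS = ⋃ i, (segment ℝ (pb i) (ps i) ∪ segment ℝ (ps 0) (ps 1)) := by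
    rw [treeS, Set.iUnion_union]
  rw [h]
  refine isPreconnected_iUnion ⟨ps 0, Set.mem_iInter.2 fun i => Or.inr (left_mem_segment _ _ _)⟩ ?_
  intro i
  exact (isConn_segment _ _).union (ps i) (right_mem_segment _ _ _) (ps_mem i) (isConn_segment _ _)

theorem isConnected_treeT : IsConnected treeT := by
  refine ⟨⟨pt 0, Or.inr (left_mem_segment _ _ _)⟩, ?_⟩
  have h : treeT = ⋃ i, ((segment ℝ (pb i) (pa i) ∪ segment ℝ (pa i) (pt i)) ∪
      segment ℝ (pt 0) (pt 2)) := by
    rw [treeT, Set.iUnion_union]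
  rw [h]
  refine isPreconnected_iUnion ⟨pt 0, Set.mem_iInter.2 fun i => Or.inr (left_mem_segment _ _ _)⟩ ?_
  intro i
  refine IsPreconnected.union (pt i) (Or.inr (right_mem_segment _ _ _)) (pt_mem i) ?_
    (isConn_segment _ _)
  exact (isConn_segment _ _).union (pa i) (right_mem_segment _ _ _) (left_mem_segment _ _ _)
    (isConn_segment _ _)

/-! ### Lengths -/

theorem dist_eq_of_sq (x y : E2) (c : ℝ) (hc : 0 ≤ c)
    (h : (x 0 - y 0) ^ 2 + (x 1 - y 1) ^ 2 = c ^ 2) : dist x y = c := by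
  rw [EuclideanSpace.dist_eq]
  simp only [Fin.sum_univ_two, Real.dist_eq, sq_abs]
  rw [h, Real.sqrt_sq hc]

theorem ll_pos : 0 < ll := by norm_num [ll]

theorem len_bs (i : Fin 4) : dist (pb i) (ps i) = ll + 2 * √3 / 3 := by
  apply dist_eq_of_sq
  · have := ll_pos; positivity
  · have h3 := sq3
    rcases ax_cases i with h | h <;> rcases ay_cases i with h' | h' <;>
      simp [pb, ps, h, h'] <;> linear_combination (ll ^ 2 / 4 - 1 / 3) * h3

theorem len_ba (i : Fin 4) : dist (pb i) (pa i) = ll := by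
  apply dist_eq_of_sq
  · exact ll_pos.le
  · have h3 := sq3
    rcases ax_cases i with h | h <;> rcases ay_cases i with h' | h' <;>
      simp [pb, pa, h, h'] <;> linear_combination (ll ^ 2 / 4) * h3

theorem len_at (i : Fin 4) : dist (pa i) (pt i) = 2 * √3 / 3 := by
  apply dist_eq_of_sq
  · positivity
  · have h3 := sq3
    rcases ax_cases i with h | h <;> rcases ay_cases i with h' | h' <;>
      simp [pt, pa, h, h'] <;> linear_combination (-1 / 3) * h3

theorem len_ss : dist (ps 0) (ps 1) = 2 * (1 - √3 / 3) := by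
  apply dist_eq_of_sq
  · have := sq3_lt; linarith
  · simp [ps, ax]; ring

theorem len_tt : dist (pt 0) (pt 2) = 2 * (1 - √3 / 3) := by
  apply dist_eq_of_sq
  · have := sq3_lt; linarith
  · simp [pt, ay]; ring

theorem seg_measure (x y : E2) : μH[1] (segment ℝ x y) = ENNReal.ofReal (dist x y) := by
  rw [hausdorffMeasure_segment, edist_dist]

theorem measure_treeS : μH[1] treeS ≤ ENNReal.ofReal (2 + 2 * √3 + 4 * ll) := by
  have h0 := ll_pos
  have h3 := sq3_lt
  calc μH[1] treeS ≤ μH[1] (⋃ i, segment ℝ (pb i) (ps i)) + μH[1] (segment ℝ (ps 0) (ps 1)) :=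
        measure_union_le _ _
    _ ≤ ∑ i, μH[1] (segment ℝ (pb i) (ps i)) + μH[1] (segment ℝ (ps 0) (ps 1)) := by
        gcongr; exact measure_iUnion_fintype_le _ _
    _ = ∑ i : Fin 4, ENNReal.ofReal (ll + 2 * √3 / 3) + ENNReal.ofReal (2 * (1 - √3 / 3)) := by
        rw [seg_measure, len_ss]
        congr 1
        exact Finset.sum_congr rfl fun i _ => by rw [seg_measure, len_bs]
    _ = ENNReal.ofReal (2 + 2 * √3 + 4 * ll) := by
        rw [← ENNReal.ofReal_sum_of_nonneg (fun i _ => by positivity),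
          ← ENNReal.ofReal_add (by positivity) (by linarith)]
        congr 1
        simp
        ring

theorem measure_treeT : μH[1] treeT ≤ ENNReal.ofReal (2 + 2 * √3 + 4 * ll) := by
  have h0 := ll_pos
  have h3 := sq3_lt
  calc μH[1] treeT ≤ μH[1] (⋃ i, (segment ℝ (pb i) (pa i) ∪ segment ℝ (pa i) (pt i)))
          + μH[1] (segment ℝ (pt 0) (pt 2)) := measure_union_le _ _
    _ ≤ ∑ i, μH[1] (segment ℝ (pb i) (pa i) ∪ segment ℝ (pa i) (pt i))
          + μH[1] (segment ℝ (pt 0) (pt 2)) := by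
        gcongr; exact measure_iUnion_fintype_le _ _
    _ ≤ ∑ i, (μH[1] (segment ℝ (pb i) (pa i)) + μH[1] (segment ℝ (pa i) (pt i)))
          + μH[1] (segment ℝ (pt 0) (pt 2)) := by
        gcongr; exact measure_union_le _ _
    _ = ∑ i : Fin 4, ENNReal.ofReal (ll + 2 * √3 / 3) + ENNReal.ofReal (2 * (1 - √3 / 3)) := by
        rw [seg_measure (pt 0), len_tt]
        congr 1
        refine Finset.sum_congr rfl fun i _ => ?_
        rw [seg_measure, seg_measure, len_ba, len_at, ← ENNReal.ofReal_add h0.le (by positivity)]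
    _ = ENNReal.ofReal (2 + 2 * √3 + 4 * ll) := by
        rw [← ENNReal.ofReal_sum_of_nonneg (fun i _ => by positivity),
          ← ENNReal.ofReal_add (by positivity) (by linarith)]
        congr 1
        simp
        ring

/-! ### The terminals lie on both trees -/

theorem pa_mem_segment (i : Fin 4) : pa i ∈ segment ℝ (pb i) (ps i) := by
  -- `pa = (1 - t) pb + t ps` with `t = ll / (ll + 2 √3 / 3)`
  have h0 := ll_pos
  have h3 := sq3_pos
  have hD : 0 < ll + 2 * √3 / 3 := by positivity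
  refine ⟨(2 * √3 / 3) / (ll + 2 * √3 / 3), ll / (ll + 2 * √3 / 3), by positivity, by positivity,
    ?_, ?_⟩
  · rw [← add_div, add_comm, div_self hD.ne']
  · ext j
    have h4 := sq3
    fin_cases j
    · simp [pa, pb, ps]
      field_simp
      linear_combination (0 : ℝ) * h4
    · simp [pa, pb, ps]
      field_simp
      linear_combination (ay i * ll) * h4

theorem term_mem_S (j : Fin 8) : term j ∈ treeS := by
  fin_cases j
  · exact Or.inl (Set.mem_iUnion.2 ⟨0, left_mem_segment _ _ _⟩)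
  · exact Or.inl (Set.mem_iUnion.2 ⟨1, left_mem_segment _ _ _⟩)
  · exact Or.inl (Set.mem_iUnion.2 ⟨2, left_mem_segment _ _ _⟩)
  · exact Or.inl (Set.mem_iUnion.2 ⟨3, left_mem_segment _ _ _⟩)
  · exact Or.inl (Set.mem_iUnion.2 ⟨0, pa_mem_segment 0⟩)
  · exact Or.inl (Set.mem_iUnion.2 ⟨1, pa_mem_segment 1⟩)
  · exact Or.inl (Set.mem_iUnion.2 ⟨2, pa_mem_segment 2⟩)
  · exact Or.inl (Set.mem_iUnion.2 ⟨3, pa_mem_segment 3⟩)

theorem term_mem_T (j : Fin 8) : term j ∈ treeT := by
  fin_cases j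
  · exact Or.inl (Set.mem_iUnion.2 ⟨0, Or.inl (left_mem_segment _ _ _)⟩)
  · exact Or.inl (Set.mem_iUnion.2 ⟨1, Or.inl (left_mem_segment _ _ _)⟩)
  · exact Or.inl (Set.mem_iUnion.2 ⟨2, Or.inl (left_mem_segment _ _ _)⟩)
  · exact Or.inl (Set.mem_iUnion.2 ⟨3, Or.inl (left_mem_segment _ _ _)⟩)
  · exact Or.inl (Set.mem_iUnion.2 ⟨0, Or.inl (right_mem_segment _ _ _)⟩)
  · exact Or.inl (Set.mem_iUnion.2 ⟨1, Or.inl (right_mem_segment _ _ _)⟩)
  · exact Or.inl (Set.mem_iUnion.2 ⟨2, Or.inl (right_mem_segment _ _ _)⟩)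
  · exact Or.inl (Set.mem_iUnion.2 ⟨3, Or.inl (right_mem_segment _ _ _)⟩)

end Q187.SteinerTwo
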