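import Mathlib
import Pool.Agent.Q187.SteinerTwo.Sets

set_option autoImplicit false

/-! The first tree is an `r`-minimizer for the eight centres of the discs. -/

namespace Q187.SteinerTwo

open scoped ENNReal NNReal
open MeasureTheory Metric
open Pool.Agent.Helper752 (E2 lin_le sq3 sq3_lt sq3_pos)

theorem coord_le (x y : E2) (j : Fin 2) : |x j - y j| ≤ dist x y := by
  have h1 := lin_le 1 0 (by norm_num) x y
  have h2 := lin_le (-1) 0 (by norm_num) x y
  have h3 := lin_le 0 1 (by norm_num) x y
  have h4 := lin_le 0 (-1) (by norm_num) x y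
  rw [abs_le]
  fin_cases j
  · simp only [Fin.zero_eta]
    constructor <;> linarith
  · simp only [Fin.mk_one]
    constructor <;> linarith

theorem exists_close {W : Set E2} (hW : IsCompact W) (hne : W.Nonempty) (y : E2)
    (h : infDist y W ≤ rr) : ∃ w ∈ W, dist w y ≤ rr := by
  obtain ⟨w, hw, hd⟩ := hW.exists_infDist_eq_dist hne y
  exact ⟨w, hw, by rw [dist_comm, ← hd]; exact h⟩

theorem lower_M {W : Set E2} (hW : IsCompact W) (hc : IsConnected W)
    (h : ∀ j, infDist (cen j) W ≤ rr) :
    ENNReal.ofReal (2 + 2 * √3 + 4 * ll) ≤ μH[1] W := by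
  have hch : ∀ j, ∃ w ∈ W, dist w (cen j) ≤ rr := fun j => exists_close hW hc.nonempty _ (h j)
  choose p hpW hpd using hch
  refine lower_bound ll_pos.le (by norm_num [ll]) hW hc p hpW ?_
  have h3 := sq3
  have h3l := sq3_lt
  have h3g := sq3_gt
  have h2p := sq2_pos
  have h2l := sq2_lt
  have h2 := sq2
  have n1 : (-1 / 2 : ℝ) ^ 2 + (√3 / 2) ^ 2 ≤ 1 := by nlinarith
  have n2 : (1 / 2 : ℝ) ^ 2 + (√3 / 2) ^ 2 ≤ 1 := by nlinarith
  have n3 : (-1 / 2 : ℝ) ^ 2 + (-(√3 / 2)) ^ 2 ≤ 1 := by nlinarith
  have n4 : (1 / 2 : ℝ) ^ 2 + (-(√3 / 2)) ^ 2 ≤ 1 := by nlinarith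
  have m1 : (√2 / 2) ^ 2 + (√2 / 2) ^ 2 ≤ 1 := by nlinarith
  have m2 : (-(√2 / 2)) ^ 2 + (√2 / 2) ^ 2 ≤ 1 := by nlinarith
  have m3 : (√2 / 2) ^ 2 + (-(√2 / 2)) ^ 2 ≤ 1 := by nlinarith
  have m4 : (-(√2 / 2)) ^ 2 + (-(√2 / 2)) ^ 2 ≤ 1 := by nlinarith
  constructor
  · intro i
    have h1 := (coord_le (p i) (cen i) 0).trans (hpd i)
    rw [abs_le] at h1 ⊢
    fin_cases i <;> simp [cen, cb, ca, ax, cor, rr, ll] at h1 ⊢ <;> constructor <;> linarith
  · intro i
    have h1 := (coord_le (p i) (cen i) 1).trans (hpd i)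
    rw [abs_le] at h1 ⊢
    fin_cases i <;> simp [cen, cb, ca, ay, cor, rr, ll] at h1 ⊢ <;> constructor <;> linarith
  · have t := (lin_le (1 / 2) (-(√3 / 2)) n4 (p 0) (cen 0)).trans (hpd 0)
    simp [cen, cb, ax, ay] at t
    linear_combination t - (rr / 4) * h3
  · have t := (lin_le (-1 / 2) (-(√3 / 2)) n3 (p 1) (cen 1)).trans (hpd 1)
    simp [cen, cb, ax, ay] at t
    linear_combination t - (rr / 4) * h3
  · have t := (lin_le (-1 / 2) (√3 / 2) n1 (p 2) (cen 2)).trans (hpd 2)
    simp [cen, cb, ax, ay] at t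
    linear_combination t - (rr / 4) * h3
  · have t := (lin_le (1 / 2) (√3 / 2) n2 (p 3) (cen 3)).trans (hpd 3)
    simp [cen, cb, ax, ay] at t
    linear_combination t - (rr / 4) * h3
  · have t := (lin_le (√2 / 2) (√2 / 2) m1 (p 4) (cen 4)).trans (hpd 4)
    simp [cen, ca, ax, ay] at t
    have : √2 / 2 * (p 4 0 + p 4 1) ≤ 0 := by linear_combination t - (rr / 2) * h2
    have := nonpos_of_mul_nonpos_right this (by positivity)
    linarith
  · have t := (lin_le (-(√2 / 2)) (√2 / 2) m2 (p 5) (cen 5)).trans (hpd 5)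
    simp [cen, ca, ax, ay] at t
    have : √2 / 2 * (-p 5 0 + p 5 1) ≤ 0 := by linear_combination t - (rr / 2) * h2
    have := nonpos_of_mul_nonpos_right this (by positivity)
    linarith
  · have t := (lin_le (-(√2 / 2)) (-(√2 / 2)) m4 (p 6) (cen 6)).trans (hpd 6)
    simp [cen, ca, ax, ay] at t
    have : √2 / 2 * (-p 6 0 - p 6 1) ≤ 0 := by linear_combination t - (rr / 2) * h2
    have := nonpos_of_mul_nonpos_right this (by positivity)
    linarith
  · have t := (lin_le (√2 / 2) (-(√2 / 2)) m3 (p 7) (cen 7)).trans (hpd 7)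
    simp [cen, ca, ax, ay] at t
    have : √2 / 2 * (p 7 0 - p 7 1) ≤ 0 := by linear_combination t - (rr / 2) * h2
    have := nonpos_of_mul_nonpos_right this (by positivity)
    linarith

theorem rr_pos : 0 < rr := by norm_num [rr]

theorem dist_cb (i : Fin 4) : dist (cb i) (pb i) = rr := by
  apply dist_eq_of_sq
  · exact rr_pos.le
  · have h3 := sq3
    rcases ax_cases i with h | h <;> rcases ay_cases i with h' | h' <;>
      simp [cb, pb, h, h'] <;> linear_combination (rr ^ 2 / 4) * h3

theorem dist_ca (i : Fin 4) : dist (ca i) (pa i) = rr := by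
  apply dist_eq_of_sq
  · exact rr_pos.le
  · have h2 := sq2
    rcases ax_cases i with h | h <;> rcases ay_cases i with h' | h' <;>
      simp [ca, pa, h, h'] <;> linear_combination (rr ^ 2 / 2) * h2

theorem dist_cen (j : Fin 8) : dist (cen j) (term j) ≤ rr := by
  fin_cases j
  · exact (dist_cb 0).le
  · exact (dist_cb 1).le
  · exact (dist_cb 2).le
  · exact (dist_cb 3).le
  · exact (dist_ca 0).le
  · exact (dist_ca 1).le
  · exact (dist_ca 2).le
  · exact (dist_ca 3).le

theorem ax_ay_inj : ∀ i j : Fin 4, ax i = ax j → ay i = ay j → i = j := by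
  intro i j
  fin_cases i <;> fin_cases j <;> simp [ax, ay] <;> norm_num

theorem pb_injective : Function.Injective pb := by
  intro i j hij
  have h0 := congrArg (fun z : E2 => z 0) hij
  have h1 := congrArg (fun z : E2 => z 1) hij
  simp only [pb] at h0 h1
  have hl := ll_pos
  have hp := sq3_pos
  refine ax_ay_inj i j ?_ ?_
  · exact mul_right_cancel₀ (b := 1 + ll / 2) (by positivity) h0
  · exact mul_right_cancel₀ (b := 1 + √3 / 2 * ll) (by positivity) h1

theorem pa_injective : Function.Injective pa := by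
  intro i j hij
  have h0 := congrArg (fun z : E2 => z 0) hij
  have h1 := congrArg (fun z : E2 => z 1) hij
  exact ax_ay_inj i j h0 h1

theorem cb_injective : Function.Injective cb := by
  intro i j hij
  have h0 := congrArg (fun z : E2 => z 0) hij
  have h1 := congrArg (fun z : E2 => z 1) hij
  simp only [cb] at h0 h1
  have hl := ll_pos
  have hp := sq3_pos
  have hr := rr_pos
  refine ax_ay_inj i j ?_ ?_
  · exact mul_right_cancel₀ (b := 1 + ll / 2 + rr / 2) (by positivity) h0
  · exact mul_right_cancel₀ (b := 1 + √3 / 2 * ll + √3 / 2 * rr) (by positivity) h1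

theorem ca_injective : Function.Injective ca := by
  intro i j hij
  have h0 := congrArg (fun z : E2 => z 0) hij
  have h1 := congrArg (fun z : E2 => z 1) hij
  simp only [ca] at h0 h1
  have hl := ll_pos
  have hp := sq2_pos
  have hr := rr_pos
  have h2 := sq2_lt
  refine ax_ay_inj i j ?_ ?_
  · exact mul_right_cancel₀ (b := 1 + √2 / 2 * rr) (by positivity) h0
  · refine mul_right_cancel₀ (b := 1 - √2 / 2 * rr) ?_ h1
    have : √2 / 2 * rr < 1 := by
      simp only [rr]; linarith
    linarith

theorem pb_ne_pa (i j : Fin 4) : pb i ≠ pa j := by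
  intro h
  have h0 := congrArg (fun z : E2 => |z 0|) h
  have e1 : |ax i| = 1 := by rcases ax_cases i with h | h <;> rw [h] <;> simp
  have e2 : |ax j| = 1 := by rcases ax_cases j with h | h <;> rw [h] <;> simp
  simp [pa, pb, abs_mul, e1, e2] at h0
  have hl := ll_pos
  rw [abs_of_pos (by positivity)] at h0
  linarith

theorem cb_ne_ca (i j : Fin 4) : cb i ≠ ca j := by
  intro h
  have h0 := congrArg (fun z : E2 => |z 1|) h
  have e1 : |ay i| = 1 := by rcases ay_cases i with h | h <;> rw [h] <;> simp
  have e2 : |ay j| = 1 := by rcases ay_cases j with h | h <;> rw [h] <;> simp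
  simp only [cb, ca] at h0
  have hl := ll_pos
  have hr := rr_pos
  have hp := sq2_pos
  have hp3 := sq3_pos
  have h2 := sq2_lt
  have h4 : √2 / 2 * rr < 1 := by
    simp only [rr]; linarith
  have h5 : (0:ℝ) < √2 / 2 * rr := by positivity
  have h6 : (0:ℝ) < √3 / 2 * ll + √3 / 2 * rr := by positivity
  have h7 : |ay i * (1 + √3 / 2 * ll + √3 / 2 * rr)| = |ay j * (1 - √2 / 2 * rr)| := h0
  rw [abs_mul, abs_mul, e1, e2, abs_of_pos (by linarith), abs_of_pos (by linarith)] at h7
  linarith

/-- The set of terminals. -/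
noncomputable def setA : Set E2 := Set.range (Sum.elim pb pa)

/-- The set of the centres of the discs. -/
noncomputable def setM : Set E2 := Set.range (Sum.elim cb ca)

theorem ncard_setA : setA.ncard = 8 := by
  rw [setA, ← Set.image_univ, Set.ncard_image_of_injective _
    (pb_injective.sumElim pa_injective pb_ne_pa), Set.ncard_univ]
  simp

theorem ncard_setM : setM.ncard = 8 := by
  rw [setM, ← Set.image_univ, Set.ncard_image_of_injective _
    (cb_injective.sumElim ca_injective cb_ne_ca), Set.ncard_univ]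
  simp

/-! ### The two trees are different -/

theorem treeT_axis (z : E2) (hz : z ∈ treeT) (h1 : z 1 = 0) : z 0 = 0 := by
  have h3 := sq3_lt
  have h3p := sq3_pos
  have h0 := ll_pos
  rcases hz with hz | hz
  · obtain ⟨i, hz | hz⟩ := Set.mem_iUnion.1 hz
    · exfalso
      obtain ⟨a, b, ha, hb, hab, rfl⟩ := hz
      have : 0 ≤ b * (√3 / 2 * ll) := by positivity
      have : 0 ≤ a * (√3 / 2 * ll) := by positivity
      rcases ay_cases i with h' | h' <;> simp [pb, pa, h'] at h1 <;> nlinarith
    · exfalso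
      obtain ⟨a, b, ha, hb, hab, rfl⟩ := hz
      have hb' : 0 ≤ b * (1 - √3 / 3) := mul_nonneg hb (by linarith)
      have hk : a + b * (1 - √3 / 3) = 0 := by
        rcases ay_cases i with h' | h' <;> simp [pt, pa, h'] at h1 <;> linarith
      have ha0 : a = 0 := by linarith
      have hb1 : b = 1 := by linarith
      subst ha0 hb1
      linarith
  · obtain ⟨a, b, ha, hb, hab, rfl⟩ := hz
    simp [pt]

theorem treeS_ne_treeT : treeS ≠ treeT := by
  intro h
  have h1 : ps 0 ∈ treeT := h ▸ (Or.inr (left_mem_segment _ _ _) : ps 0 ∈ treeS)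
  have h2 := treeT_axis _ h1 (by simp [ps])
  have h3 := sq3_lt
  simp [ps, ax] at h2
  linarith

/-! ### Segments through the terminals -/

/-- The first tree lies in the box spanned by the ends of its legs. -/
theorem treeS_box (z : E2) (hz : z ∈ treeS) (s t : ℝ) (hs : s = 1 ∨ s = -1) (ht : t = 1 ∨ t = -1) :
    s * z 0 ≤ 1 + ll / 2 ∧ t * z 1 ≤ 1 + √3 / 2 * ll := by
  have h3 := sq3_lt
  have h3p := sq3_pos
  have h0 := ll_pos
  have hc1 : Convex ℝ {z : E2 | s * z 0 ≤ 1 + ll / 2 ∧ t * z 1 ≤ 1 + √3 / 2 * ll} := by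
    intro x hx y hy a b ha hb hab
    simp only [Set.mem_ofPred_eq, PiLp.add_apply, PiLp.smul_apply, smul_eq_mul] at hx hy ⊢
    obtain rfl : b = 1 - a := by linarith
    constructor
    · nlinarith [mul_le_mul_of_nonneg_left hx.1 ha, mul_le_mul_of_nonneg_left hy.1 hb]
    · nlinarith [mul_le_mul_of_nonneg_left hx.2 ha, mul_le_mul_of_nonneg_left hy.2 hb]
  have e1 : ∀ i, pb i ∈ {z : E2 | s * z 0 ≤ 1 + ll / 2 ∧ t * z 1 ≤ 1 + √3 / 2 * ll} := by
    intro i
    have hp : 0 ≤ √3 / 2 * ll := by positivity
    rcases ax_cases i with h | h <;> rcases ay_cases i with h' | h' <;>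
      rcases hs with rfl | rfl <;> rcases ht with rfl | rfl <;>
      simp [pb, h, h'] <;> (try constructor) <;> linarith
  have e2 : ∀ i, ps i ∈ {z : E2 | s * z 0 ≤ 1 + ll / 2 ∧ t * z 1 ≤ 1 + √3 / 2 * ll} := by
    intro i
    have hp : 0 ≤ √3 / 2 * ll := by positivity
    rcases ax_cases i with h | h <;>
      rcases hs with rfl | rfl <;>
      simp [ps, h] <;> constructor <;> linarith
  rcases hz with hz | hz
  · obtain ⟨i, hz⟩ := Set.mem_iUnion.1 hz
    exact hc1.segment_subset (e1 i) (e2 i) hz
  · exact hc1.segment_subset (e2 0) (e2 1) hz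

/-- No segment in the first tree passes through an end of a leg. -/
theorem no_segment_pb (i : Fin 4) (x y : E2) (hxy : x ≠ y) (hs : segment ℝ x y ⊆ treeS)
    (h : pb i ∈ openSegment ℝ x y) : False := by
  obtain ⟨a, b, ha, hb, hab, he⟩ := h
  have hx := treeS_box x (hs (left_mem_segment _ _ _)) (ax i) (ay i) (ax_cases i) (ay_cases i)
  have hy := treeS_box y (hs (right_mem_segment _ _ _)) (ax i) (ay i) (ax_cases i) (ay_cases i)
  have h0 := congrArg (fun z : E2 => z 0) he
  have h1 := congrArg (fun z : E2 => z 1) he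
  simp only [PiLp.add_apply, PiLp.smul_apply, smul_eq_mul] at h0 h1
  have sx : ax i * ax i = 1 := by rcases ax_cases i with h | h <;> rw [h] <;> norm_num
  have sy : ay i * ay i = 1 := by rcases ay_cases i with h | h <;> rw [h] <;> norm_num
  have k0 : a * (ax i * x 0) + b * (ax i * y 0) = 1 + ll / 2 := by
    have : pb i 0 = ax i * (1 + ll / 2) := by simp [pb]
    rw [this] at h0
    linear_combination (ax i) * h0 + (1 + ll / 2) * sx
  have k1 : a * (ay i * x 1) + b * (ay i * y 1) = 1 + √3 / 2 * ll := by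
    have : pb i 1 = ay i * (1 + √3 / 2 * ll) := by simp [pb]
    rw [this] at h1
    linear_combination (ay i) * h1 + (1 + √3 / 2 * ll) * sy
  obtain rfl : b = 1 - a := by linarith
  have x0 : ax i * x 0 = 1 + ll / 2 := by
    by_contra hne
    have hlt := lt_of_le_of_ne hx.1 hne
    nlinarith [mul_lt_mul_of_pos_left hlt ha, mul_le_mul_of_nonneg_left hy.1 hb.le]
  have y0 : ax i * y 0 = 1 + ll / 2 := by
    by_contra hne
    have hlt := lt_of_le_of_ne hy.1 hne
    nlinarith [mul_lt_mul_of_pos_left hlt hb, mul_le_mul_of_nonneg_left hx.1 ha.le]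
  have x1 : ay i * x 1 = 1 + √3 / 2 * ll := by
    by_contra hne
    have hlt := lt_of_le_of_ne hx.2 hne
    nlinarith [mul_lt_mul_of_pos_left hlt ha, mul_le_mul_of_nonneg_left hy.2 hb.le]
  have y1 : ay i * y 1 = 1 + √3 / 2 * ll := by
    by_contra hne
    have hlt := lt_of_le_of_ne hy.2 hne
    nlinarith [mul_lt_mul_of_pos_left hlt hb, mul_le_mul_of_nonneg_left hx.2 ha.le]
  apply hxy
  ext j
  fin_cases j
  · show x 0 = y 0
    linear_combination (ax i) * x0 - (ax i) * y0 - (x 0 - y 0) * sx
  · show x 1 = y 1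
    linear_combination (ay i) * x1 - (ay i) * y1 - (x 1 - y 1) * sy

/-- Near a corner the second tree lies on one side of a line through the corner, and meets this
line only in the corner. -/
theorem treeT_corner (i : Fin 4) (z : E2) (hz : z ∈ treeT) (h0 : 1 / 2 < ax i * z 0)
    (h1 : 1 / 2 < ay i * z 1) :
    ax i * z 0 - ay i * z 1 ≤ 0 ∧ (ax i * z 0 - ay i * z 1 = 0 → z = pa i) := by
  have h3 := sq3_lt
  have h3g := sq3_gt
  have hl := ll_pos
  -- only the corner `i` matters
  have hcorner : ∀ j : Fin 4, 0 < ax i * ax j → 0 < ay i * ay j → j = i := by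
    intro j
    fin_cases i <;> fin_cases j <;> simp [ax, ay]
  have sx : ax i * ax i = 1 := by rcases ax_cases i with h | h <;> rw [h] <;> norm_num
  have sy : ay i * ay i = 1 := by rcases ay_cases i with h | h <;> rw [h] <;> norm_num
  rcases hz with hz | hz
  · obtain ⟨j, hz | hz⟩ := Set.mem_iUnion.1 hz
    · obtain ⟨a, b, ha, hb, hab, rfl⟩ := hz
      simp only [pb, pa, PiLp.add_apply, PiLp.smul_apply, smul_eq_mul] at h0 h1 ⊢
      simp at h0 h1 ⊢
      have c0 : 0 < a * (1 + ll / 2) + b := by
        rcases ha.eq_or_lt with rfl | ha'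
        · have : b = 1 := by linarith
          rw [this]; norm_num
        · positivity
      have c1 : 0 < a * (1 + √3 / 2 * ll) + b := by
        rcases ha.eq_or_lt with rfl | ha'
        · have : b = 1 := by linarith
          rw [this]; norm_num
        · positivity
      have hj : j = i := by
        apply hcorner
        · have : 0 < (ax i * ax j) * (a * (1 + ll / 2) + b) := by linarith
          exact (mul_pos_iff_of_pos_right c0).1 this
        · have : 0 < (ay i * ay j) * (a * (1 + √3 / 2 * ll) + b) := by linarith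
          exact (mul_pos_iff_of_pos_right c1).1 this
      subst hj
      have key : ax j * (a * (ax j * (1 + ll / 2)) + b * ax j)
          - ay j * (a * (ay j * (1 + √3 / 2 * ll)) + b * ay j) = a * ll / 2 * (1 - √3) := by
        linear_combination (a * (1 + ll / 2) + b) * sx - (a * (1 + √3 / 2 * ll) + b) * sy
      constructor
      · have : 0 ≤ a * ll := by positivity
        nlinarith
      · intro he
        rw [key] at he
        have ha0 : a = 0 := by
          by_contra hne
          have hpos : 0 < a * ll := mul_pos (lt_of_le_of_ne ha (Ne.symm hne)) hl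
          nlinarith
        have hb1 : b = 1 := by linarith
        subst ha0 hb1
        ext k
        fin_cases k <;> simp
    · obtain ⟨a, b, ha, hb, hab, rfl⟩ := hz
      simp only [pt, pa, PiLp.add_apply, PiLp.smul_apply, smul_eq_mul] at h0 h1 ⊢
      simp at h0 h1 ⊢
      have hb' : 0 ≤ b * (1 - √3 / 3) := mul_nonneg hb (by linarith)
      have a0 : 0 < a := by
        rcases ha.eq_or_lt with rfl | ha'
        · exfalso; simp at h0; linarith
        · exact ha'
      have hj : j = i := by
        apply hcorner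
        · have : 0 < (ax i * ax j) * a := by linarith
          exact (mul_pos_iff_of_pos_right a0).1 this
        · have : 0 < (ay i * ay j) * (a + b * (1 - √3 / 3)) := by linarith
          exact (mul_pos_iff_of_pos_right (by linarith)).1 this
      subst hj
      have key : ax j * (a * ax j)
          - ay j * (a * ay j + b * (ay j * (1 - √3 / 3))) = - (b * (1 - √3 / 3)) := by
        linear_combination a * sx - (a + b * (1 - √3 / 3)) * sy
      constructor
      · linarith
      · intro he
        rw [key] at he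
        have hb0 : b = 0 := by
          by_contra hne
          have hpos : 0 < b * (1 - √3 / 3) := mul_pos (lt_of_le_of_ne hb (Ne.symm hne)) (by linarith)
          linarith
        have ha1 : a = 1 := by linarith
        subst hb0 ha1
        ext k
        fin_cases k <;> simp
  · exfalso
    obtain ⟨a, b, ha, hb, hab, rfl⟩ := hz
    simp [pt] at h0
    linarith

/-- No segment in the second tree passes through a corner. -/
theorem no_segment_pa (i : Fin 4) (x y : E2) (hxy : x ≠ y) (hs : segment ℝ x y ⊆ treeT)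
    (h : pa i ∈ openSegment ℝ x y) : False := by
  obtain ⟨a, b, ha, hb, hab, he⟩ := h
  have sx : ax i * ax i = 1 := by rcases ax_cases i with h | h <;> rw [h] <;> norm_num
  have sy : ay i * ay i = 1 := by rcases ay_cases i with h | h <;> rw [h] <;> norm_num
  -- a small step
  set C : ℝ := |y 0 - x 0| + |y 1 - x 1| with hC
  have hC0 : 0 ≤ C := by positivity
  obtain ⟨e, he0, hea, heb, heC⟩ : ∃ e : ℝ, 0 < e ∧ e ≤ a ∧ e ≤ b ∧ e * C < 1 / 2 := by
    refine ⟨min (min a b) (1 / (4 * (C + 1))), ?_, ?_, ?_, ?_⟩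
    · positivity
    · exact (min_le_left _ _).trans (min_le_left _ _)
    · exact (min_le_left _ _).trans (min_le_right _ _)
    · have h1 : min (min a b) (1 / (4 * (C + 1))) * C ≤ 1 / (4 * (C + 1)) * C :=
        mul_le_mul_of_nonneg_right (min_le_right _ _) hC0
      have h2 : 1 / (4 * (C + 1)) * C ≤ 1 / 4 := by
        rw [div_mul_eq_mul_div, one_mul, div_le_div_iff₀ (by positivity) (by norm_num)]
        linarith
      linarith
  have c0 : |y 0 - x 0| ≤ C := by rw [hC]; linarith [abs_nonneg (y 1 - x 1)]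
  have c1 : |y 1 - x 1| ≤ C := by rw [hC]; linarith [abs_nonneg (y 0 - x 0)]
  have he0' := congrArg (fun z : E2 => z 0) he
  have he1' := congrArg (fun z : E2 => z 1) he
  simp [pa] at he0' he1'
  have main : ∀ s : ℝ, (s = 1 ∨ s = -1) →
      ((a - s * e) • x + (b + s * e) • y ∈ treeT) ∧
      1 / 2 < ax i * ((a - s * e) • x + (b + s * e) • y : E2) 0 ∧
      1 / 2 < ay i * ((a - s * e) • x + (b + s * e) • y : E2) 1 := by
    intro s hs'
    have hs1 : |s| = 1 := by rcases hs' with rfl | rfl <;> simp
    refine ⟨hs ⟨a - s * e, b + s * e, ?_, ?_, by linarith, rfl⟩, ?_, ?_⟩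
    · rcases hs' with rfl | rfl <;> linarith
    · rcases hs' with rfl | rfl <;> linarith
    · simp only [PiLp.add_apply, PiLp.smul_apply, smul_eq_mul]
      have : |ax i * (s * e * (y 0 - x 0))| ≤ e * C := by
        rw [abs_mul, abs_mul, abs_mul, hs1, abs_of_pos he0]
        have : |ax i| = 1 := by rcases ax_cases i with h | h <;> rw [h] <;> simp
        rw [this]
        nlinarith
      have h4 := (abs_le.1 this).1
      have h5 : ax i * ((a - s * e) * x 0 + (b + s * e) * y 0)
          = 1 + ax i * (s * e * (y 0 - x 0)) := by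
        linear_combination (ax i) * he0' + sx
      linarith
    · simp only [PiLp.add_apply, PiLp.smul_apply, smul_eq_mul]
      have : |ay i * (s * e * (y 1 - x 1))| ≤ e * C := by
        rw [abs_mul, abs_mul, abs_mul, hs1, abs_of_pos he0]
        have : |ay i| = 1 := by rcases ay_cases i with h | h <;> rw [h] <;> simp
        rw [this]
        nlinarith
      have h4 := (abs_le.1 this).1
      have h5 : ay i * ((a - s * e) * x 1 + (b + s * e) * y 1)
          = 1 + ay i * (s * e * (y 1 - x 1)) := by
        linear_combination (ay i) * he1' + sy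
      linarith
  obtain ⟨p1, p2, p3⟩ := main 1 (Or.inl rfl)
  obtain ⟨q1, q2, q3⟩ := main (-1) (Or.inr rfl)
  obtain ⟨r1, r2⟩ := treeT_corner i _ p1 p2 p3
  obtain ⟨s1, s2⟩ := treeT_corner i _ q1 q2 q3
  simp only [PiLp.add_apply, PiLp.smul_apply, smul_eq_mul] at r1 s1 r2 s2
  have hsum : (ax i * ((a - 1 * e) * x 0 + (b + 1 * e) * y 0)
        - ay i * ((a - 1 * e) * x 1 + (b + 1 * e) * y 1))
      + (ax i * ((a - -1 * e) * x 0 + (b + -1 * e) * y 0)
        - ay i * ((a - -1 * e) * x 1 + (b + -1 * e) * y 1)) = 0 := by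
    linear_combination 2 * (ax i) * he0' - 2 * (ay i) * he1' + 2 * sx - 2 * sy
  have t1 := r2 (by linarith)
  have t2 := s2 (by linarith)
  apply hxy
  have t3 := t1.trans t2.symm
  ext k
  have t4 := congrArg (fun z : E2 => z k) t3
  simp only [PiLp.add_apply, PiLp.smul_apply, smul_eq_mul] at t4
  have t5 : e * (y k - x k) = 0 := by linarith
  rcases mul_eq_zero.1 t5 with h | h
  · exact absurd h he0.ne'
  · linarith

end Q187.SteinerTwo
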